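import Pool.Agent.helper31.WB.NDefs
import Pool.Agent.helper21.WB.LibB5
import Pool.Agent.helper80.WB.N2a

/-! PART N, module N2b: the volume of a lens.  helper87 -/

set_option autoImplicit false
open Matrix MeasureTheory

namespace Pool.Agent.helper21.WB.NN.N2b

/-- the third power of the radius times `4 pi / 3` -/
theorem vol3 (r : ℝ) (hr : 0 ≤ r) :
    (volume : Measure (Fin 3 → ℝ)) {w | ∑ i, w i ^ 2 ≤ r ^ 2} =
      ENNReal.ofReal (Real.pi * 4 / 3 * r ^ 3) := by
  have h1 := (PiLp.volume_preserving_ofLp (Fin 3)).measure_preimage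
    (s := {w : Fin 3 → ℝ | ∑ i, w i ^ 2 ≤ r ^ 2}) (by
      apply MeasurableSet.nullMeasurableSet
      apply measurableSet_le <;> fun_prop)
  rw [← h1]
  have h2 : (@WithLp.ofLp 2 (Fin 3 → ℝ)) ⁻¹' {w : Fin 3 → ℝ | ∑ i, w i ^ 2 ≤ r ^ 2} =
      Metric.closedBall (0 : EuclideanSpace ℝ (Fin 3)) r := by
    ext w
    simp only [Set.mem_preimage, Set.mem_ofPred_eq, Metric.mem_closedBall, dist_zero_right,
      EuclideanSpace.norm_eq]
    rw [Real.sqrt_le_left hr]
    simp
  rw [h2, EuclideanSpace.volume_closedBall_fin_three, ← ENNReal.ofReal_pow hr,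
    ← ENNReal.ofReal_mul (by positivity)]
  congr 1
  ring

/-- lift of a point in cylindrical coordinates -/
theorem sum_Psi (p : ℝ × (Fin 3 → ℝ)) :
    1 + ∑ i, (Psi p) i ^ 2 = (1 + ∑ i, p.2 i ^ 2) * Real.cosh p.1 ^ 2 := by
  have h0 : 0 ≤ 1 + ∑ i, p.2 i ^ 2 := by
    have : 0 ≤ ∑ i, p.2 i ^ 2 := Finset.sum_nonneg (fun i _ => sq_nonneg _)
    linarith
  have e : ∑ i, (Psi p) i ^ 2 = (1 + ∑ i, p.2 i ^ 2) * Real.sinh p.1 ^ 2 + ∑ i, p.2 i ^ 2 := by
    rw [Fin.sum_univ_succ]
    simp only [Psi, Fin.cons_zero, Fin.cons_succ]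
    rw [mul_pow, Real.sq_sqrt h0]
  rw [e, Real.cosh_sq]
  ring

theorem lift_Psi_o (p : ℝ × (Fin 3 → ℝ)) :
    lift (Psi p) o = Real.sqrt (1 + ∑ i, p.2 i ^ 2) * Real.cosh p.1 := by
  rw [lift_inr, sum_Psi, Real.sqrt_mul' _ (sq_nonneg _), Real.sqrt_sq (Real.cosh_pos _).le]

theorem ch_Psi (a : ℝ) (p : ℝ × (Fin 3 → ℝ)) :
    ch (Psi (a, 0)) (Psi p) = Real.sqrt (1 + ∑ i, p.2 i ^ 2) * Real.cosh (p.1 - a) := by
  unfold ch
  rw [bl_apply, lift_Psi_o, lift_Psi_o, Fin.sum_univ_succ]
  simp only [lift_inl]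
  simp only [Psi, Fin.cons_zero, Fin.cons_succ]
  simp
  rw [Real.cosh_sub]
  ring

theorem hd_Psi (t : ℝ) (ht : 0 ≤ t) : hd (Psi (-(t / 2), 0)) (Psi (t / 2, 0)) = t := by
  unfold hd
  rw [ch_Psi]
  simp only [Pi.zero_apply]
  simp
  exact Real.arcosh_cosh ht

theorem hd_le_iff {x y : X} {r : ℝ} (hr : 0 ≤ r) : hd x y ≤ r ↔ ch x y ≤ Real.cosh r := by
  rw [← cosh_hd x y]
  exact (Real.cosh_strictMonoOn.le_iff_le (a := hd x y) (b := r) (hd_nonneg x y) hr).symm

/-- the fibre radius -/
noncomputable def rad (t s : ℝ) : ℝ := 93 / 100 * Real.exp (t / 2 - |s|)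

theorem key_ineq {t s : ℝ} (ht : 10 ≤ t) (hs : |s| ≤ 3) :
    Real.sqrt (1 + rad t s ^ 2) * Real.cosh (t / 2 + |s|) ≤ Real.cosh (t - 1 / 20) := by
  set A := Real.exp (t / 2 - |s|) with hA
  have hApos : 0 < A := Real.exp_pos _
  set e := Real.exp (-t) with he
  have hepos : 0 < e := Real.exp_pos _
  have hA2 : 54 ≤ A ^ 2 := by
    have h1 : A ^ 2 = Real.exp (t - 2 * |s|) := by
      rw [hA, ← Real.exp_nat_mul]; congr 1; push_cast; ring
    have h2 : Real.exp 4 ≤ Real.exp (t - 2 * |s|) := Real.exp_le_exp.2 (by linarith)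
    have h3 : (54 : ℝ) ≤ Real.exp 4 := by
      have h4 : Real.exp 4 = Real.exp 1 ^ 4 := by
        rw [← Real.exp_nat_mul]; congr 1; norm_num
      rw [h4]
      have h5 := Real.exp_one_gt_d9
      have h6 : (2.718 : ℝ) ^ 4 ≤ Real.exp 1 ^ 4 := by gcongr; linarith
      norm_num at h6 ⊢
      linarith
    rw [h1]; linarith
  have he1 : e ≤ 1 / 2000 := by
    have h2 : Real.exp (-t) ≤ Real.exp (-10) := Real.exp_le_exp.2 (by linarith)
    have h3 : Real.exp (-10) ≤ 1 / 2000 := by
      rw [Real.exp_neg]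
      have h4 : Real.exp 10 = Real.exp 1 ^ 10 := by
        rw [← Real.exp_nat_mul]; congr 1; norm_num
      rw [h4]
      have h5 := Real.exp_one_gt_d9
      have h6 : (2.5 : ℝ) ^ 10 ≤ Real.exp 1 ^ 10 := by gcongr; linarith
      have h7 : (2000 : ℝ) ≤ Real.exp 1 ^ 10 := by norm_num at h6; linarith
      rw [one_div]
      exact inv_anti₀ (by norm_num) h7
    linarith
  set b := Real.exp (-(1 / 20)) with hb
  have hbpos : 0 < b := Real.exp_pos _
  have hb2 : 9 / 10 ≤ b ^ 2 := by
    have h1 : b ^ 2 = Real.exp (-(1 / 10)) := by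
      rw [hb, ← Real.exp_nat_mul]; congr 1; push_cast; ring
    rw [h1]
    have := Real.add_one_le_exp (-(1 / 10) : ℝ)
    linarith
  have h1 : Real.sqrt (1 + rad t s ^ 2) ≤ b * (1 - e) * A := by
    rw [Real.sqrt_le_left (by
      have : 0 ≤ 1 - e := by linarith
      positivity)]
    have e1 : rad t s ^ 2 = (93 / 100) ^ 2 * A ^ 2 := by unfold rad; rw [mul_pow]
    rw [e1, mul_pow, mul_pow]
    have h3 : 999 / 1000 ≤ (1 - e) ^ 2 := by nlinarith
    have h4 : 9 / 10 * (999 / 1000) ≤ b ^ 2 * (1 - e) ^ 2 := by gcongr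
    nlinarith
  have h2 : Real.cosh (t / 2 + |s|) ≤ Real.exp (t / 2 + |s|) * (1 + e) / 2 := by
    rw [Real.cosh_eq]
    have h3 : Real.exp (-(t / 2 + |s|)) ≤ Real.exp (t / 2 + |s|) * e := by
      rw [he, ← Real.exp_add]
      apply Real.exp_le_exp.2
      have := abs_nonneg s
      linarith
    linarith
  have h3 : Real.exp (t / 2 + |s|) * A = Real.exp t := by
    rw [hA, ← Real.exp_add]; congr 1; ring
  have h4 : Real.exp t * b / 2 ≤ Real.cosh (t - 1 / 20) := by
    rw [Real.cosh_eq, hb, ← Real.exp_add]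
    have := Real.exp_pos (-(t - 1 / 20))
    have e2 : t + -(1 / 20) = t - 1 / 20 := by ring
    rw [e2]
    linarith
  have hc := Real.cosh_pos (t / 2 + |s|)
  have hee : 0 ≤ 1 - e := by linarith
  calc Real.sqrt (1 + rad t s ^ 2) * Real.cosh (t / 2 + |s|)
      ≤ (b * (1 - e) * A) * (Real.exp (t / 2 + |s|) * (1 + e) / 2) := by gcongr
    _ = (Real.exp (t / 2 + |s|) * A) * b / 2 * (1 - e ^ 2) := by ring
    _ = Real.exp t * b / 2 * (1 - e ^ 2) := by rw [h3]
    _ ≤ Real.exp t * b / 2 * 1 := by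
        have := Real.exp_pos t
        gcongr
        nlinarith
    _ ≤ _ := by rw [mul_one]; exact h4

/-- the subset of the lens -/
def S (t : ℝ) : Set (ℝ × (Fin 3 → ℝ)) := {p | |p.1| ≤ 3 ∧ ∑ i, p.2 i ^ 2 ≤ rad t p.1 ^ 2}

theorem S_subset {t : ℝ} (ht : 10 ≤ t) :
    S t ⊆ Psi ⁻¹' Lens (Psi (-(t / 2), 0)) (Psi (t / 2, 0)) := by
  rintro p ⟨h1, h2⟩
  have k := key_ineq ht h1
  have hk : Real.sqrt (1 + ∑ i, p.2 i ^ 2) * Real.cosh (t / 2 + |p.1|) ≤ Real.cosh (t - 1 / 20) := by
    refine le_trans ?_ k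
    have := Real.cosh_pos (t / 2 + |p.1|)
    gcongr
  have aux : ∀ a : ℝ, |a| ≤ t / 2 + |p.1| →
      Real.sqrt (1 + ∑ i, p.2 i ^ 2) * Real.cosh a ≤ Real.cosh (t - 1 / 20) := by
    intro a ha
    refine le_trans ?_ hk
    have : Real.cosh a ≤ Real.cosh (t / 2 + |p.1|) := by
      rw [Real.cosh_le_cosh]
      exact ha.trans (le_abs_self _)
    gcongr
  show _ ≤ _ ∧ _ ≤ _
  rw [hd_Psi t (by linarith)]
  constructor
  · rw [hd_le_iff (by linarith), ch_Psi]
    apply aux
    rw [abs_le]
    constructor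
    · have := neg_abs_le p.1
      linarith
    · have := le_abs_self p.1
      linarith
  · rw [hd_comm, hd_le_iff (by linarith), ch_Psi]
    apply aux
    rw [abs_le]
    constructor
    · have := neg_abs_le p.1
      linarith
    · have := le_abs_self p.1
      linarith

theorem measurableSet_S (t : ℝ) : MeasurableSet (S t) := by
  unfold S rad
  exact (measurableSet_le (f := fun p : ℝ × (Fin 3 → ℝ) => |p.1|) (by fun_prop) (by fun_prop)).inter
    (measurableSet_le (f := fun p : ℝ × (Fin 3 → ℝ) => ∑ i, p.2 i ^ 2)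
      (g := fun p : ℝ × (Fin 3 → ℝ) => (93 / 100 * Real.exp (t / 2 - |p.1|)) ^ 2)
      (by fun_prop) (by fun_prop))

theorem vol_S (t : ℝ) : ENNReal.ofReal (11 / 5 * Real.exp (3 / 2 * t)) ≤ volume (S t) := by
  rw [Measure.volume_eq_prod, Measure.prod_apply (measurableSet_S t)]
  have h1 : ∀ s ∈ Set.Icc (-3 : ℝ) 3, volume (Prod.mk s ⁻¹' S t) =
      ENNReal.ofReal (Real.pi * 4 / 3 * rad t s ^ 3) := by
    intro s hs
    have : Prod.mk s ⁻¹' S t = {w : Fin 3 → ℝ | ∑ i, w i ^ 2 ≤ rad t s ^ 2} := by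
      ext w
      simp only [Set.mem_preimage, S, Set.mem_ofPred_eq]
      constructor
      · exact fun h => h.2
      · exact fun h => ⟨abs_le.2 hs, h⟩
    rw [this, vol3 _ (by unfold rad; positivity)]
  calc ENNReal.ofReal (11 / 5 * Real.exp (3 / 2 * t))
      ≤ ∫⁻ s in Set.Icc (-3 : ℝ) 3, ENNReal.ofReal (Real.pi * 4 / 3 * rad t s ^ 3) := by
        rw [← ofReal_integral_eq_lintegral_ofReal]
        · apply ENNReal.ofReal_le_ofReal
          rw [integral_Icc_eq_integral_Ioc, ← intervalIntegral.integral_of_le (by norm_num)]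
          have e1 : ∀ s : ℝ, Real.pi * 4 / 3 * rad t s ^ 3 =
              (Real.pi * 4 / 3 * (93 / 100) ^ 3 * Real.exp (3 / 2 * t)) * Real.exp (-3 * |s|) := by
            intro s
            have : rad t s ^ 3 = (93 / 100) ^ 3 * (Real.exp (3 / 2 * t) * Real.exp (-3 * |s|)) := by
              unfold rad
              rw [mul_pow, ← Real.exp_nat_mul, ← Real.exp_add]
              congr 2
              push_cast; ring
            rw [this]; ring
          simp_rw [e1]
          rw [intervalIntegral.integral_const_mul]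
          have hi : ∫ s in (-3 : ℝ)..3, Real.exp (-3 * |s|) = 2 / 3 * (1 - Real.exp (-9)) := by
            have hint : ∀ a b : ℝ, IntervalIntegrable (fun s => Real.exp (-3 * |s|)) volume a b :=
              fun a b => (by fun_prop : Continuous fun s : ℝ => Real.exp (-3 * |s|)).intervalIntegrable a b
            rw [← intervalIntegral.integral_add_adjacent_intervals (hint (-3) 0) (hint 0 3)]
            have i1 : ∫ s in (-3 : ℝ)..0, Real.exp (-3 * |s|) = 1 / 3 * (1 - Real.exp (-9)) := by
              have : ∫ s in (-3 : ℝ)..0, Real.exp (-3 * |s|) = ∫ s in (-3 : ℝ)..0, Real.exp (3 * s) := by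
                apply intervalIntegral.integral_congr
                intro s hs
                rw [Set.uIcc_of_le (by norm_num)] at hs
                simp only
                rw [abs_of_nonpos hs.2]
                congr 1; ring
              rw [this, intervalIntegral.integral_eq_sub_of_hasDerivAt (f := fun s => Real.exp (3 * s) / 3)]
              · simp
                norm_num
                ring
              · intro s _
                have := ((hasDerivAt_id s).const_mul (3 : ℝ)).exp.div_const 3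
                simpa [mul_comm] using this
              · exact (by fun_prop : Continuous fun s : ℝ => Real.exp (3 * s)).intervalIntegrable _ _
            have i2 : ∫ s in (0 : ℝ)..3, Real.exp (-3 * |s|) = 1 / 3 * (1 - Real.exp (-9)) := by
              have : ∫ s in (0 : ℝ)..3, Real.exp (-3 * |s|) = ∫ s in (0 : ℝ)..3, Real.exp (-3 * s) := by
                apply intervalIntegral.integral_congr
                intro s hs
                rw [Set.uIcc_of_le (by norm_num)] at hs
                simp only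
                rw [abs_of_nonneg hs.1]
              rw [this, intervalIntegral.integral_eq_sub_of_hasDerivAt (f := fun s => -(Real.exp (-3 * s) / 3))]
              · simp
                norm_num
                ring
              · intro s _
                have := (((hasDerivAt_id s).const_mul (-3 : ℝ)).exp.div_const 3).neg
                have e2 : -(Real.exp (-3 * id s) * (-3 * 1) / 3) = Real.exp (-3 * s) := by
                  simp only [id]; ring
                rw [e2] at this
                exact this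
              · exact (by fun_prop : Continuous fun s : ℝ => Real.exp (-3 * s)).intervalIntegrable _ _
            rw [i1, i2]; ring
          rw [hi]
          have h9 : Real.exp (-9) ≤ 1 / 1000 := by
            rw [Real.exp_neg]
            have h4 : Real.exp 9 = Real.exp 1 ^ 9 := by
              rw [← Real.exp_nat_mul]; congr 1; norm_num
            rw [h4]
            have h5 := Real.exp_one_gt_d9
            have h6 : (2.5 : ℝ) ^ 9 ≤ Real.exp 1 ^ 9 := by gcongr; linarith
            have h7 : (1000 : ℝ) ≤ Real.exp 1 ^ 9 := by norm_num at h6; linarith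
            rw [one_div]
            exact inv_anti₀ (by norm_num) h7
          have hpi := Real.pi_gt_d2
          have hE := Real.exp_pos (3 / 2 * t)
          have key : 11 / 5 ≤ Real.pi * 4 / 3 * (93 / 100) ^ 3 * (2 / 3 * (1 - Real.exp (-9))) := by
            have : (3.14 : ℝ) * 4 / 3 * (93 / 100) ^ 3 * (2 / 3 * (1 - 1 / 1000)) ≤
              Real.pi * 4 / 3 * (93 / 100) ^ 3 * (2 / 3 * (1 - Real.exp (-9))) := by gcongr
            norm_num at this ⊢
            linarith
          calc 11 / 5 * Real.exp (3 / 2 * t)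
              ≤ (Real.pi * 4 / 3 * (93 / 100) ^ 3 * (2 / 3 * (1 - Real.exp (-9)))) * Real.exp (3 / 2 * t) := by
                gcongr
            _ = _ := by ring
        · have hc : Continuous fun s => Real.pi * 4 / 3 * rad t s ^ 3 := by unfold rad; fun_prop
          exact hc.continuousOn.integrableOn_Icc
        · refine Filter.Eventually.of_forall (fun s => ?_)
          show 0 ≤ Real.pi * 4 / 3 * rad t s ^ 3
          unfold rad
          positivity
    _ = ∫⁻ s in Set.Icc (-3 : ℝ) 3, volume (Prod.mk s ⁻¹' S t) :=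
        (setLIntegral_congr_fun measurableSet_Icc h1).symm
    _ ≤ _ := setLIntegral_le_lintegral _ _

end Pool.Agent.helper21.WB.NN.N2b

namespace Pool.Agent.helper21.WB.NN

open N2b

theorem lens_vol_of (mp : MeasurePreserving Psi (volume : Measure (ℝ × (Fin 3 → ℝ))) μ) :
    ∃ t₀ : ℝ, 1 ≤ t₀ ∧ ∀ x y, t₀ ≤ hd x y →
    ENNReal.ofReal (11 / 5 * Real.exp (3 / 2 * hd x y)) ≤ μ (Lens x y) := by
  refine ⟨10, by norm_num, fun x y h => ?_⟩
  set t := hd x y with ht
  obtain ⟨g, hg, g1, g2⟩ := exists_pair (x := x) (y := y) (x' := Psi (-(t / 2), 0))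
    (y' := Psi (t / 2, 0)) (by rw [hd_Psi t (by linarith)])
  have e1 : Lens x y = act g ⁻¹' Lens (Psi (-(t / 2), 0)) (Psi (t / 2, 0)) := by
    ext z
    simp only [Lens, Set.mem_preimage, Set.mem_ofPred_eq]
    rw [← g1, ← g2, hd_act hg, hd_act hg, hd_act hg]
  have hm : MeasurableSet (Lens (Psi (-(t / 2), 0)) (Psi (t / 2, 0))) := by
    have c := continuous_hd
    exact (measurableSet_le (f := fun z => hd (Psi (-(t / 2), 0)) z)
        (c.comp (Continuous.prodMk continuous_const continuous_id)).measurable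
        measurable_const).inter
      (measurableSet_le (f := fun z => hd z (Psi (t / 2, 0)))
        (c.comp (Continuous.prodMk continuous_id continuous_const)).measurable
        measurable_const)
  rw [e1, (measurePreserving_act hg).measure_preimage hm.nullMeasurableSet,
    ← mp.measure_preimage hm.nullMeasurableSet]
  exact (vol_S t).trans (measure_mono (S_subset h))

theorem lens_vol : ∃ t₀ : ℝ, 1 ≤ t₀ ∧ ∀ x y, t₀ ≤ hd x y →
    ENNReal.ofReal (11 / 5 * Real.exp (3 / 2 * hd x y)) ≤ μ (Lens x y) :=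
  lens_vol_of mp_Psi

end Pool.Agent.helper21.WB.NN
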